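import Mathlib

/-!
# The critical Derrida-Retaux recursion with `m = 2` and a heavy-tailed initial law

`p0` is the law with `p0 0 = c / 2` and `p0 k = 2 c / (2 ^ k k (k+1) (k+2))` for `k ≥ 1`. It is critical
and satisfies `∑ k, (k - a)⁺ 2 ^ k p0 k = c / (a + 1)`. The inequality
`T (n+1) a ≥ A n * T n (a+1)`, where `T n a = ∑ k, (k - a)⁺ 2 ^ k p n k` and `A n = ∑ k, 2 ^ k p n k`,
shows that the product of the `A j`, `j < N`, is at most `2 (N + 1) / c`, which excludes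
`1 - p n 0 ≥ (5/2) / n ^ 2` for all large `n`.
-/

set_option autoImplicit false

open Filter Topology
open scoped ENNReal BigOperators

namespace Pool.Agent.U139.DR

/-- one step of the recursion, as in the problem, `m = 2` -/
noncomputable def step (q : ℕ → ℝ) (k : ℕ) : ℝ :=
  (∑ x : Fin 2 → Fin (k + 2), if (∑ i, (x i : ℕ)) = k + 1 then ∏ i, q (x i) else 0)
    + (if k = 0 then q 0 ^ 2 else 0)

lemma step_eq (q : ℕ → ℝ) (k : ℕ) :
    step q k = (∑ x ∈ Finset.HasAntidiagonal.antidiagonal (k + 1), q x.1 * q x.2)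
      + (if k = 0 then q 0 * q 0 else 0) := by
  unfold step
  rw [pow_two]
  congr 1
  simp only [Fin.sum_univ_two, Fin.prod_univ_two]
  rw [← Finset.sum_filter]
  refine Finset.sum_bij (fun x _ => ((x 0 : ℕ), (x 1 : ℕ))) ?_ ?_ ?_ ?_
  · intro x hx
    simp only [Finset.mem_filter, Finset.mem_univ, true_and] at hx
    simpa using hx
  · intro x hx y hy h
    simp only [Prod.mk.injEq] at h
    funext i
    fin_cases i
    · exact Fin.ext h.1
    · exact Fin.ext h.2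
  · intro b hb
    rw [Finset.HasAntidiagonal.mem_antidiagonal] at hb
    refine ⟨![⟨b.1, by omega⟩, ⟨b.2, by omega⟩], ?_, ?_⟩
    · simp [hb]
    · simp
  · intro x hx
    rfl

/-- The expectation of `g` under the weights `q`, in `[0, ∞]`. -/
noncomputable def E (q : ℕ → ℝ) (g : ℕ → ℝ≥0∞) : ℝ≥0∞ := ∑' k, ENNReal.ofReal (q k) * g k

lemma step_nonneg {q : ℕ → ℝ} (hq : ∀ k, 0 ≤ q k) (k : ℕ) : 0 ≤ step q k := by
  rw [step_eq]
  have : 0 ≤ ∑ x ∈ Finset.HasAntidiagonal.antidiagonal (k + 1), q x.1 * q x.2 :=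
    Finset.sum_nonneg fun x _ => mul_nonneg (hq _) (hq _)
  split_ifs
  · have := mul_nonneg (hq 0) (hq 0); linarith
  · linarith

/-- change of variables in one step -/
lemma E_step {q : ℕ → ℝ} (hq : ∀ k, 0 ≤ q k) (g : ℕ → ℝ≥0∞) :
    E (step q) g = ∑' i, ∑' j, ENNReal.ofReal (q i) * ENNReal.ofReal (q j) * g (i + j - 1) := by
  rw [← ENNReal.tsum_prod]
  have h1 : ∀ x : ℕ × ℕ, ENNReal.ofReal (q x.1) * ENNReal.ofReal (q x.2) * g (x.1 + x.2 - 1)
      = ∑' k, if k = x.1 + x.2 - 1 then ENNReal.ofReal (q x.1) * ENNReal.ofReal (q x.2) * g k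
          else 0 := by
    intro x
    rw [tsum_ite_eq]
  rw [tsum_congr h1, ENNReal.tsum_comm]
  unfold E
  refine tsum_congr fun k => ?_
  have h2 : ∀ x : ℕ × ℕ, (if k = x.1 + x.2 - 1 then
      ENNReal.ofReal (q x.1) * ENNReal.ofReal (q x.2) * g k else 0) =
      (if x.1 + x.2 = k + 1 then ENNReal.ofReal (q x.1) * ENNReal.ofReal (q x.2) * g k else 0)
      + (if x = (0, 0) then (if k = 0 then ENNReal.ofReal (q 0) * ENNReal.ofReal (q 0) * g k
          else 0) else 0) := by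
    rintro ⟨i, j⟩
    simp only [Prod.mk.injEq]
    by_cases h0 : i = 0 ∧ j = 0
    · obtain ⟨rfl, rfl⟩ := h0
      by_cases hk : k = 0
      · subst hk; simp
      · simp [hk]
    · rw [if_neg h0, add_zero]
      have : (k = i + j - 1) ↔ (i + j = k + 1) := by omega
      simp only [this]
  rw [tsum_congr h2, ENNReal.tsum_add, tsum_ite_eq]
  rw [step_eq, ENNReal.ofReal_add (Finset.sum_nonneg fun x _ => mul_nonneg (hq _) (hq _))
    (by split_ifs; exacts [mul_nonneg (hq 0) (hq 0), le_rfl]), add_mul]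
  congr 1
  · rw [ENNReal.ofReal_sum_of_nonneg (fun x _ => mul_nonneg (hq _) (hq _)), Finset.sum_mul]
    rw [tsum_eq_sum (s := Finset.HasAntidiagonal.antidiagonal (k + 1))]
    · refine Finset.sum_congr rfl fun x hx => ?_
      rw [Finset.HasAntidiagonal.mem_antidiagonal] at hx
      rw [if_pos hx, ENNReal.ofReal_mul (hq _)]
    · intro x hx
      rw [Finset.HasAntidiagonal.mem_antidiagonal] at hx
      rw [if_neg hx]
  · by_cases hk : k = 0
    · simp [hk, ENNReal.ofReal_mul (hq 0)]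
    · simp [hk]

lemma E_mul (q : ℕ → ℝ) (g h : ℕ → ℝ≥0∞) :
    ∑' i, ∑' j, ENNReal.ofReal (q i) * ENNReal.ofReal (q j) * (g i * h j) = E q g * E q h := by
  unfold E
  rw [← ENNReal.tsum_mul_right]
  refine tsum_congr fun i => ?_
  rw [← ENNReal.tsum_mul_left]
  refine tsum_congr fun j => ?_
  ring

lemma E_zero (q : ℕ → ℝ) :
    ∑' i, ∑' j, ENNReal.ofReal (q i) * ENNReal.ofReal (q j) *
      (if i = 0 ∧ j = 0 then 1 else 0) = ENNReal.ofReal (q 0) * ENNReal.ofReal (q 0) := by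
  rw [tsum_eq_single 0, tsum_eq_single 0]
  · simp
  · intro j hj; simp [hj]
  · intro i hi; simp [hi]

/-- the weights `2 ^ k` -/
noncomputable def w (k : ℕ) : ℝ≥0∞ := 2 ^ k

/-- the weights `k 2 ^ k` -/
noncomputable def wk (k : ℕ) : ℝ≥0∞ := (k : ℝ≥0∞) * 2 ^ k

/-- the weights `(k - a)⁺ 2 ^ k` -/
noncomputable def wt (a k : ℕ) : ℝ≥0∞ := ((k - a : ℕ) : ℝ≥0∞) * 2 ^ k

lemma mass_step {q : ℕ → ℝ} (hq : ∀ k, 0 ≤ q k) (h : E q (fun _ => 1) = 1) :
    E (step q) (fun _ => 1) = 1 := by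
  rw [E_step hq]
  have := E_mul q (fun _ => 1) (fun _ => 1)
  simp only [mul_one] at this ⊢
  rw [this, h, one_mul]

lemma A_step {q : ℕ → ℝ} (hq : ∀ k, 0 ≤ q k) :
    2 * E (step q) w = E q w * E q w + ENNReal.ofReal (q 0) * ENNReal.ofReal (q 0) := by
  rw [E_step hq, ← E_mul, ← E_zero, ← ENNReal.tsum_mul_left, ← ENNReal.tsum_add]
  refine tsum_congr fun i => ?_
  rw [← ENNReal.tsum_mul_left, ← ENNReal.tsum_add]
  refine tsum_congr fun j => ?_
  rw [← mul_add, mul_left_comm]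
  congr 1
  unfold w
  by_cases h0 : i = 0 ∧ j = 0
  · obtain ⟨rfl, rfl⟩ := h0
    norm_num
  · rw [if_neg h0, add_zero, ← pow_add, ← pow_succ']
    congr 1
    omega

lemma B_step {q : ℕ → ℝ} (hq : ∀ k, 0 ≤ q k) :
    2 * E (step q) wk + E q w * E q w =
      (E q wk * E q w + E q w * E q wk) + ENNReal.ofReal (q 0) * ENNReal.ofReal (q 0) := by
  rw [E_step hq, ← E_mul, ← E_mul, ← E_mul, ← E_zero, ← ENNReal.tsum_mul_left,
    ← ENNReal.tsum_add, ← ENNReal.tsum_add, ← ENNReal.tsum_add]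
  refine tsum_congr fun i => ?_
  rw [← ENNReal.tsum_mul_left, ← ENNReal.tsum_add, ← ENNReal.tsum_add, ← ENNReal.tsum_add]
  refine tsum_congr fun j => ?_
  rw [← mul_add, ← mul_add, mul_left_comm, ← mul_add]
  congr 1
  unfold w wk
  by_cases h0 : i = 0 ∧ j = 0
  · obtain ⟨rfl, rfl⟩ := h0
    norm_num
  · rw [if_neg h0, add_zero]
    obtain ⟨l, hl⟩ : ∃ l, i + j = l + 1 := ⟨i + j - 1, by omega⟩
    have h1 : i + j - 1 = l := by omega
    have h2 : (2 : ℝ≥0∞) ^ i * 2 ^ j = 2 * 2 ^ l := by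
      rw [← pow_add, hl, pow_succ']
    have h3 : ((i : ℝ≥0∞) * 2 ^ i * 2 ^ j + 2 ^ i * ((j : ℝ≥0∞) * 2 ^ j)) =
        ((i + j : ℕ) : ℝ≥0∞) * (2 ^ i * 2 ^ j) := by push_cast; ring
    rw [h1, h3, h2, hl]
    push_cast
    ring

lemma T_step {q : ℕ → ℝ} (hq : ∀ k, 0 ≤ q k) (a : ℕ) :
    E q w * E q (wt (a + 1)) ≤ E (step q) (wt a) := by
  have key : 2 * (E q w * E q (wt (a + 1))) ≤ 2 * E (step q) (wt a) := by
    have e : 2 * (E q w * E q (wt (a + 1))) =
        E q (wt (a + 1)) * E q w + E q w * E q (wt (a + 1)) := by ring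
    rw [e, E_step hq, ← E_mul, ← E_mul, ← ENNReal.tsum_mul_left, ← ENNReal.tsum_add]
    refine ENNReal.tsum_le_tsum fun i => ?_
    rw [← ENNReal.tsum_mul_left, ← ENNReal.tsum_add]
    refine ENNReal.tsum_le_tsum fun j => ?_
    rw [← mul_add, mul_left_comm]
    refine mul_le_mul_right ?_ _
    unfold w wt
    by_cases h0 : i = 0 ∧ j = 0
    · obtain ⟨rfl, rfl⟩ := h0
      simp
    · obtain ⟨l, hl⟩ : ∃ l, i + j = l + 1 := ⟨i + j - 1, by omega⟩
      have h1 : i + j - 1 = l := by omega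
      have h2 : (2 : ℝ≥0∞) ^ i * 2 ^ j = 2 * 2 ^ l := by
        rw [← pow_add, hl, pow_succ']
      have h3 : (((i - (a + 1) : ℕ) : ℝ≥0∞) * 2 ^ i * 2 ^ j +
          2 ^ i * (((j - (a + 1) : ℕ) : ℝ≥0∞) * 2 ^ j)) =
          (((i - (a + 1)) + (j - (a + 1)) : ℕ) : ℝ≥0∞) * (2 ^ i * 2 ^ j) := by
        push_cast; ring
      rw [h1, h3, h2, mul_left_comm 2]
      refine mul_le_mul_left ?_ _
      have : (i - (a + 1)) + (j - (a + 1)) ≤ l - a := by omega
      exact_mod_cast this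
  have h2 : (2 : ℝ≥0∞) ≠ 0 := by norm_num
  have h2' : (2 : ℝ≥0∞) ≠ ⊤ := by norm_num
  exact (ENNReal.mul_le_mul_iff_right h2 h2').1 key

end Pool.Agent.U139.DR
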