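import Mathlib
import Pool.Agent.U139.DR

set_option autoImplicit false

open Filter Topology
open scoped ENNReal BigOperators

namespace Pool.Agent.U139.DR

/-! ### the initial law -/

/-- `2 / (k (k+1) (k+2))`, which is `0` at `k = 0` -/
noncomputable def v (k : ℕ) : ℝ := 2 / ((k : ℝ) * (k + 1) * (k + 2))

lemma v_nonneg (k : ℕ) : 0 ≤ v k := by unfold v; positivity

/-- telescoping function -/
noncomputable def F (a k : ℕ) : ℝ := 2 / ((k : ℝ) + 1) - a / (k * (k + 1))

lemma F_step (a k : ℕ) (hk : 1 ≤ k) : ((k : ℝ) - a) * v k = F a k - F a (k + 1) := by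
  have : (k : ℝ) ≠ 0 := by positivity
  unfold v F
  push_cast
  field_simp
  ring

lemma F_tendsto (a : ℕ) : Tendsto (F a) atTop (𝓝 0) := by
  have h1 : Tendsto (fun k : ℕ => (2 : ℝ) / ((k : ℝ) + 1)) atTop (𝓝 0) := by
    have := (tendsto_one_div_add_atTop_nhds_zero_nat (𝕜 := ℝ)).const_mul 2
    simp only [mul_zero] at this
    refine this.congr fun k => by ring
  have h2 : Tendsto (fun k : ℕ => (a : ℝ) / (k * (k + 1))) atTop (𝓝 0) := by
    have h3 := ((tendsto_one_div_add_atTop_nhds_zero_nat (𝕜 := ℝ)).mul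
      (tendsto_one_div_atTop_nhds_zero_nat (𝕜 := ℝ))).const_mul (a : ℝ)
    simp only [mul_zero] at h3
    refine h3.congr fun k => ?_
    rw [mul_comm (k : ℝ), one_div, one_div, div_eq_mul_inv, mul_inv]
  have := h1.sub h2
  rwa [sub_zero] at this

/-- `∑ (k - a)⁺ v k = 1 / (a + 1)` -/
lemma hasSum_v (a : ℕ) : HasSum (fun k : ℕ => ((k - a : ℕ) : ℝ) * v k) (1 / ((a : ℝ) + 1)) := by
  rw [hasSum_iff_tendsto_nat_of_nonneg (fun k => mul_nonneg (Nat.cast_nonneg _) (v_nonneg k))]
  have h1 : ∀ n : ℕ, ∑ k ∈ Finset.range (a + 1 + n), ((k - a : ℕ) : ℝ) * v k =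
      F a (a + 1) - F a (a + 1 + n) := by
    intro n
    induction n with
    | zero =>
      rw [add_zero, sub_self]
      refine Finset.sum_eq_zero fun k hk => ?_
      rw [Finset.mem_range] at hk
      have : k - a = 0 := by omega
      rw [this]; simp
    | succ n ih =>
      rw [← add_assoc, Finset.sum_range_succ, ih]
      have e : (((a + 1 + n) - a : ℕ) : ℝ) = ((a + 1 + n : ℕ) : ℝ) - a := by
        rw [Nat.cast_sub (by omega)]
      rw [e, F_step a (a + 1 + n) (by omega)]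
      ring
  have h2 : F a (a + 1) = 1 / ((a : ℝ) + 1) := by
    unfold F
    push_cast
    field_simp
    ring
  rw [← tendsto_add_atTop_iff_nat (a + 1)]
  have h3 : Tendsto (fun n : ℕ => F a (a + 1) - F a (a + 1 + n)) atTop (𝓝 (F a (a + 1) - 0)) := by
    refine tendsto_const_nhds.sub ?_
    have := (F_tendsto a).comp (tendsto_add_atTop_nat (a + 1))
    refine this.congr fun n => ?_
    simp only [Function.comp]
    rw [add_comm]
  rw [sub_zero, h2] at h3
  refine h3.congr fun n => ?_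
  rw [← h2, ← h1 n, add_comm n]

/-- `∑ v k = 1 / 2` -/
lemma hasSum_v' : HasSum v (1 / 2) := by
  have h2 := (hasSum_v 0).sub (hasSum_v 1)
  have e : (1 : ℝ) / (((0 : ℕ) : ℝ) + 1) - 1 / (((1 : ℕ) : ℝ) + 1) = 1 / 2 := by norm_num
  rw [e] at h2
  have h3 : (fun k : ℕ => ((k - 0 : ℕ) : ℝ) * v k - ((k - 1 : ℕ) : ℝ) * v k) = v := by
    funext k
    rcases Nat.eq_zero_or_pos k with rfl | hk
    · simp [v]
    · rw [Nat.cast_sub hk]
      push_cast
      simp only [Nat.sub_zero]
      ring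
  rwa [h3] at h2

lemma summable_v2 : Summable (fun k : ℕ => v k / 2 ^ k) := by
  refine Summable.of_nonneg_of_le (fun k => div_nonneg (v_nonneg k) (by positivity)) (fun k => ?_)
    hasSum_v'.summable
  exact div_le_self (v_nonneg k) (one_le_pow₀ (by norm_num))

/-- `∑ v k / 2 ^ k` -/
noncomputable def K : ℝ := ∑' k : ℕ, v k / 2 ^ k

lemma K_nonneg : 0 ≤ K := tsum_nonneg fun k => div_nonneg (v_nonneg k) (by positivity)

/-- normalisation -/
noncomputable def c : ℝ := 1 / (1 / 2 + K)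

lemma c_pos : 0 < c := by
  have := K_nonneg
  unfold c
  positivity

/-- the initial law -/
noncomputable def p0 (k : ℕ) : ℝ := c * (v k / 2 ^ k) + (if k = 0 then c / 2 else 0)

lemma p0_nonneg (k : ℕ) : 0 ≤ p0 k := by
  unfold p0
  have h1 := v_nonneg k
  have h2 := c_pos
  have : 0 ≤ c * (v k / 2 ^ k) := by positivity
  split_ifs <;> linarith

lemma p0_zero : p0 0 = c / 2 := by simp [p0, v]

lemma hasSum_ite0 (x : ℝ) : HasSum (fun k : ℕ => if k = 0 then x else 0) x := hasSum_ite_eq 0 x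

lemma p0_hasSum : HasSum p0 1 := by
  have h1 : HasSum (fun k : ℕ => c * (v k / 2 ^ k)) (c * K) :=
    summable_v2.hasSum.mul_left c
  have h := h1.add (hasSum_ite0 (c / 2))
  have e : c * K + c / 2 = 1 := by
    have := K_nonneg
    unfold c
    field_simp
    ring
  rw [e] at h
  exact h

lemma p0_pow (k : ℕ) : p0 k * 2 ^ k = c * v k + (if k = 0 then c / 2 else 0) := by
  unfold p0
  rcases Nat.eq_zero_or_pos k with rfl | hk
  · simp
  · rw [if_neg (by omega), add_zero, add_zero]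
    have : (2 : ℝ) ^ k ≠ 0 := by positivity
    field_simp

lemma p0_A : HasSum (fun k : ℕ => p0 k * 2 ^ k) c := by
  have h := (hasSum_v'.mul_left c).add (hasSum_ite0 (c / 2))
  have e : c * (1 / 2) + c / 2 = c := by ring
  rw [e] at h
  have h3 : (fun k : ℕ => p0 k * 2 ^ k) =
      fun k : ℕ => c * v k + (if k = 0 then c / 2 else 0) := funext p0_pow
  rw [h3]
  exact h

lemma p0_T (a : ℕ) : HasSum (fun k : ℕ => ((k - a : ℕ) : ℝ) * p0 k * 2 ^ k) (c / ((a : ℝ) + 1)) := by
  have h := (hasSum_v a).mul_left c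
  have e : c * (1 / ((a : ℝ) + 1)) = c / ((a : ℝ) + 1) := by ring
  rw [e] at h
  have h3 : (fun k : ℕ => ((k - a : ℕ) : ℝ) * p0 k * 2 ^ k) =
      fun k : ℕ => c * (((k - a : ℕ) : ℝ) * v k) := by
    funext k
    rw [mul_assoc, p0_pow]
    rcases Nat.eq_zero_or_pos k with rfl | hk
    · simp
    · rw [if_neg (by omega)]; ring
  rw [h3]
  exact h

end Pool.Agent.U139.DR
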