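import Mathlib
import Pool.Agent.U139.DR2

set_option autoImplicit false

open Filter Topology
open scoped ENNReal BigOperators

namespace Pool.Agent.U139.DR

/-- the laws -/
noncomputable def p : ℕ → ℕ → ℝ
  | 0 => p0
  | n + 1 => step (p n)

lemma p_nonneg (n : ℕ) : ∀ k, 0 ≤ p n k := by
  induction n with
  | zero => exact p0_nonneg
  | succ n ih => exact step_nonneg ih

lemma E_ofReal {q : ℕ → ℝ} (hq : ∀ k, 0 ≤ q k) {g : ℕ → ℝ} (hg : ∀ k, 0 ≤ g k) {x : ℝ}
    (h : HasSum (fun k => q k * g k) x) : E q (fun k => ENNReal.ofReal (g k)) = ENNReal.ofReal x := by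
  unfold E
  rw [← h.tsum_eq, ENNReal.ofReal_tsum_of_nonneg (fun k => mul_nonneg (hq k) (hg k)) h.summable]
  exact tsum_congr fun k => (ENNReal.ofReal_mul (hq k)).symm

lemma mass (n : ℕ) : E (p n) (fun _ => 1) = 1 := by
  induction n with
  | zero =>
    have h := E_ofReal p0_nonneg (g := fun _ => 1) (fun _ => zero_le_one) (x := 1)
      (by simpa using p0_hasSum)
    show E p0 _ = 1
    simpa using h
  | succ n ih => exact mass_step (p_nonneg n) ih

/-- `A n = ∑ 2 ^ k p n k` -/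
noncomputable def A (n : ℕ) : ℝ≥0∞ := E (p n) w

lemma A_zero : A 0 = ENNReal.ofReal c := by
  have h := E_ofReal p0_nonneg (g := fun k => (2 : ℝ) ^ k) (fun _ => by positivity) p0_A
  unfold A w
  rw [← h]
  show E p0 _ = E p0 _
  congr 1
  funext k
  rw [ENNReal.ofReal_pow (by norm_num)]
  norm_num

lemma T_zero (a : ℕ) : E p0 (wt a) = ENNReal.ofReal (c / ((a : ℝ) + 1)) := by
  have h := E_ofReal p0_nonneg (g := fun k => ((k - a : ℕ) : ℝ) * 2 ^ k)
    (fun _ => by positivity) (x := c / ((a : ℝ) + 1)) (by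
      have h1 := p0_T a
      have e : (fun k : ℕ => ((k - a : ℕ) : ℝ) * p0 k * 2 ^ k) =
          fun k : ℕ => p0 k * (((k - a : ℕ) : ℝ) * 2 ^ k) := by
        funext k; ring
      rwa [e] at h1)
  rw [← h]
  congr 1
  funext k
  unfold wt
  rw [ENNReal.ofReal_mul (by positivity), ENNReal.ofReal_pow (by norm_num)]
  norm_num

lemma A_succ (n : ℕ) :
    2 * A (n + 1) = A n * A n + ENNReal.ofReal (p n 0) * ENNReal.ofReal (p n 0) :=
  A_step (p_nonneg n)

lemma A_ne_top (n : ℕ) : A n ≠ ⊤ := by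
  induction n with
  | zero => rw [A_zero]; exact ENNReal.ofReal_ne_top
  | succ n ih =>
    intro h
    have h1 := A_succ n
    rw [h, ENNReal.mul_top (by norm_num)] at h1
    exact ENNReal.add_ne_top.2 ⟨ENNReal.mul_ne_top ih ih,
      ENNReal.mul_ne_top ENNReal.ofReal_ne_top ENNReal.ofReal_ne_top⟩ h1.symm

lemma wt_zero : wt 0 = wk := by
  funext k; simp [wt, wk]

/-- criticality is preserved -/
lemma crit (n : ℕ) : E (p n) wk = A n := by
  induction n with
  | zero =>
    show E p0 wk = A 0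
    rw [← wt_zero, T_zero, A_zero]
    simp
  | succ n ih =>
    have h1 := B_step (p_nonneg n)
    have h2 := A_succ n
    rw [ih] at h1
    change 2 * E (p (n + 1)) wk + A n * A n = (A n * A n + A n * A n) + _ at h1
    rw [add_assoc, ← h2, add_comm] at h1
    have h3 := (ENNReal.add_right_inj (ENNReal.mul_ne_top (A_ne_top n) (A_ne_top n))).1 h1
    exact (ENNReal.mul_right_inj (by norm_num) (by norm_num)).1 h3

lemma A_le (n : ℕ) : A n ≤ 2 := by
  have h1 : 2 * A n ≤ A n + 2 := by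
    calc 2 * A n = ∑' k, ENNReal.ofReal (p n k) * (2 * 2 ^ k) := by
          unfold A E w
          rw [← ENNReal.tsum_mul_left]
          exact tsum_congr fun k => by ring
      _ ≤ ∑' k, (ENNReal.ofReal (p n k) * ((k : ℝ≥0∞) * 2 ^ k) +
            2 * (ENNReal.ofReal (p n k) * 1)) := by
          refine ENNReal.tsum_le_tsum fun k => ?_
          have : (2 : ℝ≥0∞) * 2 ^ k ≤ (k : ℝ≥0∞) * 2 ^ k + 2 := by
            have h : 2 * 2 ^ k ≤ k * 2 ^ k + 2 := by
              rcases k with _ | _ | k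
              · norm_num
              · norm_num
              · have : 2 * 2 ^ (k + 1 + 1) ≤ (k + 1 + 1) * 2 ^ (k + 1 + 1) :=
                  Nat.mul_le_mul_right _ (by omega)
                omega
            exact_mod_cast h
          calc ENNReal.ofReal (p n k) * (2 * 2 ^ k)
              ≤ ENNReal.ofReal (p n k) * ((k : ℝ≥0∞) * 2 ^ k + 2) := mul_le_mul_right this _
            _ = _ := by ring
      _ = A n + 2 := by
          rw [ENNReal.tsum_add, ENNReal.tsum_mul_left]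
          have e1 : ∑' k, ENNReal.ofReal (p n k) * ((k : ℝ≥0∞) * 2 ^ k) = A n := crit n
          have e2 : ∑' k, ENNReal.ofReal (p n k) * 1 = 1 := mass n
          rw [e1, e2, mul_one]
  rw [two_mul] at h1
  exact (ENNReal.add_le_add_iff_left (A_ne_top n)).1 h1

lemma one_le_A (n : ℕ) : 1 ≤ A n := by
  rw [← mass n]
  refine ENNReal.tsum_le_tsum fun k => mul_le_mul_right ?_ _
  exact one_le_pow₀ (by norm_num)

lemma T_prod (n a : ℕ) : (∏ j ∈ Finset.range n, A j) * E p0 (wt (a + n)) ≤ E (p n) (wt a) := by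
  induction n generalizing a with
  | zero => simp [p]
  | succ n ih =>
    have h1 := T_step (p_nonneg n) a
    refine le_trans ?_ h1
    rw [Finset.prod_range_succ, mul_comm _ (A n), mul_assoc]
    refine mul_le_mul_right ?_ _
    have := ih (a + 1)
    have e : a + 1 + n = a + (n + 1) := by ring
    rwa [e] at this

/-- real version of `A` -/
noncomputable def a (n : ℕ) : ℝ := (A n).toReal

lemma a_succ (n : ℕ) : 2 * a (n + 1) = a n * a n + p n 0 * p n 0 := by
  have h := congrArg ENNReal.toReal (A_succ n)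
  rw [ENNReal.toReal_mul, ENNReal.toReal_add (ENNReal.mul_ne_top (A_ne_top n) (A_ne_top n))
    (ENNReal.mul_ne_top ENNReal.ofReal_ne_top ENNReal.ofReal_ne_top), ENNReal.toReal_mul,
    ENNReal.toReal_mul, ENNReal.toReal_ofReal (p_nonneg n 0)] at h
  simpa [a] using h

lemma a_le (n : ℕ) : a n ≤ 2 := by
  have := ENNReal.toReal_mono (by norm_num) (A_le n)
  simpa [a] using this

lemma one_le_a (n : ℕ) : 1 ≤ a n := by
  have := ENNReal.toReal_mono (A_ne_top n) (one_le_A n)
  simpa [a] using this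

lemma a_prod (n : ℕ) : (∏ j ∈ Finset.range n, a j) * (c / ((n : ℝ) + 1)) ≤ 2 := by
  have h := (T_prod n 0)
  rw [wt_zero, crit, zero_add, T_zero] at h
  have h1 := ENNReal.toReal_mono (A_ne_top n) h
  rw [ENNReal.toReal_mul, ENNReal.toReal_prod,
    ENNReal.toReal_ofReal (div_nonneg c_pos.le (by positivity))] at h1
  exact h1.trans (a_le n)

lemma p_hasSum (n : ℕ) : HasSum (p n) 1 := by
  have h := mass n
  unfold E at h
  simp only [mul_one] at h
  have h1 : Summable (p n) := by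
    have := ENNReal.summable_toReal (f := fun k => ENNReal.ofReal (p n k)) (by rw [h]; simp)
    refine this.congr fun k => ?_
    rw [ENNReal.toReal_ofReal (p_nonneg n k)]
  rw [← ENNReal.ofReal_tsum_of_nonneg (p_nonneg n) h1] at h
  have h2 : ∑' k, p n k = 1 := by
    have := congrArg ENNReal.toReal h
    rwa [ENNReal.toReal_ofReal (tsum_nonneg (p_nonneg n)), ENNReal.toReal_one] at this
  rw [← h2]
  exact h1.hasSum

lemma p_zero_le (n : ℕ) {s : ℝ} (hs0 : 0 ≤ s) (hs1 : s ≤ 1) : p n 0 ≤ ∑' k, p n k * s ^ k := by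
  have hs : Summable (fun k => p n k * s ^ k) := by
    refine Summable.of_nonneg_of_le (fun k => mul_nonneg (p_nonneg n k) (by positivity))
      (fun k => ?_) (p_hasSum n).summable
    exact mul_le_of_le_one_right (p_nonneg n k) (pow_le_one₀ hs0 hs1)
  have := hs.le_tsum 0 (fun k _ => mul_nonneg (p_nonneg n k) (by positivity))
  simpa using this

/-! ### the analytic part -/

/-- harmonic sums -/
noncomputable def h (n : ℕ) : ℝ := ∑ i ∈ Finset.range n, 1 / ((i : ℝ) + 1)

lemma h_succ (n : ℕ) : h (n + 1) = h n + 1 / ((n : ℝ) + 1) := Finset.sum_range_succ _ _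

lemma h_tendsto : Tendsto h atTop atTop := Real.tendsto_sum_range_one_div_nat_succ_atTop

/-- the step of the analytic part -/
lemma step_ineq {n : ℕ} (hn : 5 ≤ n) {e e' : ℝ} (he : 0 ≤ e) (hb : n * e ≤ 5 / 4)
    (h1 : e' ≤ e + e ^ 2 / 2 - 5 / (2 * (n : ℝ) ^ 2) + 25 / (8 * (n : ℝ) ^ 4)) :
    ((n : ℝ) + 1) * e' ≤ n * e - 1 / 4 * (1 / ((n : ℝ) + 1)) := by
  have hn5 : (5 : ℝ) ≤ n := by exact_mod_cast hn
  have hn0 : (0 : ℝ) < n := by linarith
  set b : ℝ := n * e with hbdef
  have hb0 : 0 ≤ b := by positivity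
  have hee : e = b / n := by rw [hbdef]; field_simp
  have h2 : ((n : ℝ) + 1) * e' ≤ ((n : ℝ) + 1) *
      (b / n + (b / n) ^ 2 / 2 - 5 / (2 * (n : ℝ) ^ 2) + 25 / (8 * (n : ℝ) ^ 4)) := by
    rw [hee] at h1
    exact mul_le_mul_of_nonneg_left h1 (by linarith)
  refine h2.trans ?_
  have h3 : 1 / ((n : ℝ) + 1) ≤ 1 / n := one_div_le_one_div_of_le hn0 (by linarith)
  have h4 : ((n : ℝ) + 1) *
      (b / n + (b / n) ^ 2 / 2 - 5 / (2 * (n : ℝ) ^ 2) + 25 / (8 * (n : ℝ) ^ 4)) ≤
      b - 1 / 4 * (1 / n) := by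
    have h5 : b - 1 / 4 * (1 / n) - ((n : ℝ) + 1) *
      (b / n + (b / n) ^ 2 / 2 - 5 / (2 * (n : ℝ) ^ 2) + 25 / (8 * (n : ℝ) ^ 4)) =
      (-(8 * b * n ^ 3) - 4 * b ^ 2 * n ^ 2 * (n + 1) + 20 * n ^ 2 * (n + 1) - 25 * (n + 1)
        - 2 * n ^ 3) / (8 * (n : ℝ) ^ 4) := by
      field_simp
      ring
    have h6 : 0 ≤ (-(8 * b * n ^ 3) - 4 * b ^ 2 * n ^ 2 * (n + 1) + 20 * n ^ 2 * (n + 1)
        - 25 * ((n : ℝ) + 1) - 2 * n ^ 3) := by
      have hb2 : b ^ 2 ≤ 25 / 16 := by nlinarith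
      have e1 : 8 * b * (n : ℝ) ^ 3 ≤ 10 * n ^ 3 := by nlinarith [pow_pos hn0 3]
      have e2 : 4 * b ^ 2 * (n : ℝ) ^ 2 * (n + 1) ≤ 25 / 4 * n ^ 2 * (n + 1) := by
        have : 0 ≤ (n : ℝ) ^ 2 * (n + 1) := by positivity
        nlinarith
      nlinarith [pow_pos hn0 2, pow_pos hn0 3, mul_pos hn0 hn0]
    have h7 := div_nonneg h6 (by positivity : (0 : ℝ) ≤ 8 * (n : ℝ) ^ 4)
    rw [← h5] at h7
    linarith
  linarith

/-- a nonnegative sequence with the recursion is eventually at least `(5 / 4) / n` -/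
lemma lower {e : ℕ → ℝ} (he : ∀ n, 0 ≤ e n) {N : ℕ} (hN : 5 ≤ N)
    (hr : ∀ n, N ≤ n → e (n + 1) ≤ e n + e n ^ 2 / 2 - 5 / (2 * (n : ℝ) ^ 2)
      + 25 / (8 * (n : ℝ) ^ 4)) {n : ℕ} (hn : N ≤ n) : 5 / 4 ≤ n * e n := by
  by_contra hcon
  push Not at hcon
  have key : ∀ k : ℕ, ((n + k : ℕ) : ℝ) * e (n + k) + 1 / 4 * h (n + k) ≤ 5 / 4 + 1 / 4 * h n ∧
      ((n + k : ℕ) : ℝ) * e (n + k) ≤ 5 / 4 := by
    intro k
    induction k with
    | zero => simp only [add_zero]; constructor <;> linarith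
    | succ k ih =>
      have h1 := step_ineq (n := n + k) (by omega) (he _) ih.2 (hr (n + k) (by omega))
      rw [← add_assoc]
      push_cast at h1 ih ⊢
      rw [h_succ]
      push_cast
      have h2 : (0 : ℝ) ≤ 1 / ((n : ℝ) + k + 1) := by positivity
      constructor
      · linarith [ih.1]
      · linarith [ih.2]
  obtain ⟨M, hM⟩ := (h_tendsto.eventually_gt_atTop (5 + h n)).exists_forall_of_atTop
  have h1 := (key M).1
  have h2 := hM (n + M) (by omega)
  have h3 : 0 ≤ ((n + M : ℕ) : ℝ) * e (n + M) := mul_nonneg (Nat.cast_nonneg _) (he _)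
  linarith

lemma one_le_prod (n : ℕ) : 1 ≤ ∏ j ∈ Finset.range n, a j := by
  induction n with
  | zero => simp
  | succ n ih =>
    rw [Finset.prod_range_succ]
    nlinarith [one_le_a n]

lemma contradiction {s₀ : ℕ} (hq : ∀ n, s₀ ≤ n → p n 0 ≤ 1 - 5 / (2 * (n : ℝ) ^ 2)) : False := by
  set N := max s₀ 5 with hNdef
  have hN5 : 5 ≤ N := le_max_right _ _
  have hNs : s₀ ≤ N := le_max_left _ _
  have hlow : ∀ n, N ≤ n → 5 / 4 ≤ n * (a n - 1) := by
    intro n hn
    refine lower (e := fun n => a n - 1) (fun n => by linarith [one_le_a n]) hN5 ?_ hn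
    intro n hn
    have h1 := a_succ n
    have h2 := hq n (by omega)
    have h3 := p_nonneg n 0
    have h4 : p n 0 * p n 0 ≤ (1 - 5 / (2 * (n : ℝ) ^ 2)) * (1 - 5 / (2 * (n : ℝ) ^ 2)) :=
      mul_le_mul h2 h2 h3 (h3.trans h2)
    have hn0 : (0 : ℝ) < n := by
      have : 0 < n := by omega
      exact_mod_cast this
    have h5 : (1 - 5 / (2 * (n : ℝ) ^ 2)) * (1 - 5 / (2 * (n : ℝ) ^ 2)) =
        1 - 5 / (n : ℝ) ^ 2 + 25 / (4 * (n : ℝ) ^ 4) := by
      field_simp
      ring
    have h6 : 5 / (2 * (n : ℝ) ^ 2) = 1 / 2 * (5 / (n : ℝ) ^ 2) := by field_simp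
    have h7 : 25 / (8 * (n : ℝ) ^ 4) = 1 / 2 * (25 / (4 * (n : ℝ) ^ 4)) := by field_simp; ring
    show a (n + 1) - 1 ≤ a n - 1 + (a n - 1) ^ 2 / 2 - 5 / (2 * (n : ℝ) ^ 2)
      + 25 / (8 * (n : ℝ) ^ 4)
    rw [h6, h7]
    nlinarith
  have hNpos : (0 : ℝ) < N := by
    have : 0 < N := by omega
    exact_mod_cast this
  have hprod : ∀ k : ℕ, ((N + k : ℕ) : ℝ) / N * (1 + 1 / 8 * (h (N + k) - h N)) ≤
      ∏ j ∈ Finset.range (N + k), a j := by
    intro k
    induction k with
    | zero =>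
      simp only [add_zero, sub_self, mul_zero, mul_one]
      rw [div_self hNpos.ne']
      exact one_le_prod N
    | succ k ih =>
      rw [← add_assoc, Finset.prod_range_succ]
      set n := N + k with hn
      have hn0 : (0 : ℝ) < n := by
        have : 0 < n := by omega
        exact_mod_cast this
      have h1 := hlow n (by omega)
      have h2 : (1 + 1 / (n : ℝ)) * (1 + 1 / 8 * (1 / ((n : ℝ) + 1))) ≤ a n := by
        have h3 : (1 : ℝ) / (n + 1) ≤ 1 / n := one_div_le_one_div_of_le hn0 (by linarith)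
        have h4 : 1 + 5 / 4 * (1 / (n : ℝ)) ≤ a n := by
          have : 5 / 4 / (n : ℝ) ≤ a n - 1 := by
            rw [div_le_iff₀ hn0]; linarith
          have e : 5 / 4 / (n : ℝ) = 5 / 4 * (1 / (n : ℝ)) := by ring
          linarith
        refine le_trans ?_ h4
        have h5 : (1 + 1 / (n : ℝ)) * (1 / (n + 1)) = 1 / n := by field_simp
        have h6 : (1 + 1 / (n : ℝ)) * (1 + 1 / 8 * (1 / ((n : ℝ) + 1))) =
            1 + 1 / (n : ℝ) + 1 / 8 * ((1 + 1 / (n : ℝ)) * (1 / (n + 1))) := by ring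
        rw [h6, h5]
        have : 0 ≤ 1 / (n : ℝ) := by positivity
        linarith
      have hpos : 0 ≤ 1 + 1 / 8 * (h n - h N) := by
        have : h N ≤ h n := by
          unfold h
          refine Finset.sum_le_sum_of_subset_of_nonneg ?_ (fun i _ _ => by positivity)
          intro i hi
          rw [Finset.mem_range] at hi ⊢
          omega
        linarith
      have h7 : ((n : ℝ) / N * (1 + 1 / 8 * (h n - h N))) *
          ((1 + 1 / (n : ℝ)) * (1 + 1 / 8 * (1 / ((n : ℝ) + 1)))) ≤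
          (∏ j ∈ Finset.range n, a j) * a n := by
        refine mul_le_mul ih h2 (by positivity) ?_
        exact Finset.prod_nonneg fun j _ => by linarith [one_le_a j]
      refine le_trans ?_ h7
      rw [h_succ]
      push_cast
      have h8 : ((n : ℝ) / N * (1 + 1 / 8 * (h n - h N))) *
          ((1 + 1 / (n : ℝ)) * (1 + 1 / 8 * (1 / ((n : ℝ) + 1)))) =
          ((n : ℝ) + 1) / N * ((1 + 1 / 8 * (h n - h N)) * (1 + 1 / 8 * (1 / ((n : ℝ) + 1)))) := by
        field_simp
      rw [h8]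
      refine mul_le_mul_of_nonneg_left ?_ (by positivity)
      have h9 : 0 ≤ 1 / ((n : ℝ) + 1) := by positivity
      have h10 : h N ≤ h n := by linarith [hpos, (by
          unfold h
          refine Finset.sum_le_sum_of_subset_of_nonneg ?_ (fun i _ _ => by positivity)
          intro i hi
          rw [Finset.mem_range] at hi ⊢
          omega : h N ≤ h n)]
      nlinarith [mul_nonneg (sub_nonneg.2 h10) h9]
  have hc := c_pos
  obtain ⟨M, hM⟩ := (h_tendsto.eventually_gt_atTop (h N + 8 * (4 * N / c))).exists_forall_of_atTop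
  have h1 := hprod M
  have h2 := hM (N + M) (by omega)
  have h3 := a_prod (N + M)
  have hcast : ((N + M : ℕ) : ℝ) = (N : ℝ) + M := by push_cast; ring
  have hM0 : (0 : ℝ) ≤ M := Nat.cast_nonneg _
  set n : ℝ := ((N + M : ℕ) : ℝ) with hn
  have hn1 : 1 ≤ n := by
    rw [hcast]
    have : (5 : ℝ) ≤ N := by exact_mod_cast hN5
    linarith
  have h4 : n / N * (1 + 1 / 8 * (h (N + M) - h N)) * (c / (n + 1)) ≤ 2 :=
    (mul_le_mul_of_nonneg_right h1 (by positivity)).trans h3
  have h5 : n / N * (4 * N / c) * (c / (n + 1)) < n / N * (1 + 1 / 8 * (h (N + M) - h N)) *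
      (c / (n + 1)) := by
    have h6 : 4 * N / c < 1 + 1 / 8 * (h (N + M) - h N) := by linarith
    have h7 : 0 < n / N := by positivity
    have h8 : 0 < c / (n + 1) := by positivity
    gcongr
  have h9 : n / N * (4 * N / c) * (c / (n + 1)) = 4 * (n / (n + 1)) := by
    field_simp
  have h10 : 1 / 2 ≤ n / (n + 1) := by
    rw [div_le_div_iff₀ (by norm_num) (by linarith)]
    linarith
  rw [h9] at h5
  linarith

end Pool.Agent.U139.DR
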